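import Pool.Agent.H12.BCT.FIN
import Pool.Agent.H12.BCT.OMB
import Pool.Agent.H12.BCT.OMD
import Pool.Agent.H12.BCT.PRS
import Pool.Agent.H12.BCT.UIA
import Pool.Agent.H13.BCT.UPN
import Pool.Agent.H16.BCT.GEN
import Pool.Agent.H16.BCT.NBR
import Pool.Agent.H16.BCT.POS
import Pool.Agent.H16.BCT.RCH
import Pool.Agent.H19.BCT.CEB
import Pool.Agent.H19.BCT.STB
import Pool.Agent.H19.BCT.XBR
import Pool.Agent.H27.BCT.Ops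
import Pool.Agent.H27.BCT.XNA
import Pool.Agent.H27.BCT.XSL
import Pool.Agent.H30.BCT.CEC
import Pool.Agent.H30.BCT.ISO
import Pool.Agent.H35.BCT.XCO
import Pool.Agent.H37.BDE.CEN
import Pool.Agent.H37.BDE.MLT
import Pool.Agent.H4.BCT.BRC
import Pool.Agent.H49.BCT.EXT
import Pool.Agent.H49.BCT.LIN
import Pool.Agent.H57.BCT.CDT
import Pool.Agent.H57.BCT.DUX
import Pool.Agent.H57.BCT.LOW
import Pool.Agent.H57.BCT.PRNN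
import Pool.Agent.H57.BCT.SPB
import Pool.Agent.H57.BCT.SPR
import Pool.Agent.H57.BCT.UIC
import Pool.Agent.H57.BCT.UIT
import Pool.Agent.H57.BCT.UPR
import Pool.Agent.H57.BCT.XAD
import Pool.Agent.H57.BCT.XCM
import Pool.Agent.H57.BCT.XEB
import Pool.Agent.H59.BCT.CED
import Pool.Agent.H59.BCT.HXY
import Pool.Agent.H7.BCT.CTG
import Pool.Agent.H72.BD.UIR
import Pool.Agent.H74.BCT.FLD
import Pool.Agent.H76.BCT.CDC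
import Pool.Agent.H76.BCT.HEA
import Pool.Agent.H77.BCP.Asm
import Pool.Agent.H77.BD.Targets
import Pool.Agent.H78.BCT.BRB
import Pool.Agent.H78.BCT.OMS
import Pool.Agent.H82.BCT.CEA
import Pool.Agent.H82.BCT.HEI
import Pool.Agent.H82.BCT.TRK
import Pool.Agent.H82.BCT.UPS
import Pool.Agent.H86.BCT.CNT
import Pool.Agent.H86.BCT.SCA
import Pool.Agent.H86.BCT.TRI

/-!
# Assembly (board bct_modules)
-/

set_option autoImplicit false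

open Set Matrix Pool.Agent.H77.BC Pool.Agent.H77.BD

namespace Pool.Agent.H77.BDS

theorem a_BRB : T_BRB :=
  Pool.Agent.H78.BCT.pf_BRB 

theorem a_POS : T_POS :=
  Pool.Agent.H16.BCT.pf_POS 

theorem a_BRC : T_BRC :=
  Pool.Agent.H4.BCT.pf_BRC a_POS

theorem a_XEB : T_XEB :=
  Pool.Agent.H57.BCT.pf_XEB 

theorem a_SPB : T_SPB :=
  Pool.Agent.H57.BCT.pf_SPB 

theorem a_XAD : T_XAD :=
  Pool.Agent.H57.BCT.pf_XAD a_XEB a_SPB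

theorem a_XCM : T_XCM :=
  Pool.Agent.H57.BCT.pf_XCM a_XEB a_SPB

theorem a_XCO : T_XCO :=
  Pool.Agent.H35.BCT.pf_XCO a_XEB a_SPB

theorem a_XSL : T_XSL :=
  Pool.Agent.H27.BCT.pf_XSL a_XEB a_SPB

theorem a_XDG : T_XDG :=
  Pool.Agent.H27.BCT.pf_XDG a_XEB a_SPB

theorem a_PRN : T_PRN :=
  Pool.Agent.H57.BCT.pf_PRN 

theorem a_XNA : T_XNA :=
  Pool.Agent.H27.BCT.pf_XNA a_XCM a_XCO

theorem a_XNB : T_XNB :=
  Pool.Agent.H27.BCT.pf_XNB a_SPB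

theorem a_XBR : T_XBR :=
  Pool.Agent.H19.BCT.pf_XBR a_XEB a_BRB a_SPB a_XNA a_XNB

theorem a_LIN : T_LIN :=
  Pool.Agent.H49.BCT.pf_LIN a_XAD a_XBR

theorem a_NBR : T_NBR :=
  Pool.Agent.H16.BCT.pf_NBR 

theorem a_EXT : T_EXT :=
  Pool.Agent.H49.BCT.pf_EXT 

theorem a_CEA : T_CEA :=
  Pool.Agent.H82.BCT.pf_CEA a_BRB a_EXT a_PRN

theorem a_CEB : T_CEB :=
  Pool.Agent.H19.BCT.pf_CEB a_BRB a_EXT a_PRN a_CEA

theorem a_CEC : T_CEC :=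
  Pool.Agent.H30.BCT.pf_CEC a_BRB a_EXT a_PRN a_CEA

theorem a_CED : T_CED :=
  Pool.Agent.H59.BCT.pf_CED a_BRB a_PRN a_NBR a_CEA a_CEC

theorem a_CEN : T_CEN :=
  Pool.Agent.H77.BD.pf_CEN a_BRB a_SPB a_XEB a_NBR a_CEA a_CEB a_CEC a_CED

theorem a_TRI : T_TRI :=
  Pool.Agent.H86.BCT.pf_TRI a_XEB a_SPB

theorem a_CDC : T_CDC :=
  Pool.Agent.H76.BCT.pf_CDC a_XAD a_XCM a_XCO a_XSL a_XDG a_XEB a_PRN a_LIN a_CEN a_TRI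

theorem a_CDT : T_CDT :=
  Pool.Agent.H57.BCT.pf_CDT 

theorem a_SCA : T_SCA :=
  Pool.Agent.H86.BCT.pf_SCA 

theorem a_CNT : T_CNT :=
  Pool.Agent.H86.BCT.pf_CNT a_SCA

theorem a_CTG {M : Type} (U : RU M) : T_CTG U :=
  Pool.Agent.H7.BCT.pf_CTG U (Pool.Agent.H77.BCP.a_RKA U) (Pool.Agent.H77.BCP.a_RKB U)

theorem a_DUX {M : Type} (U : RU M) : T_DUX U :=
  Pool.Agent.H57.BCT.pf_DUX U (Pool.Agent.H77.BCP.a_GRD U)

theorem a_RCH : T_RCH :=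
  Pool.Agent.H16.BCT.pf_RCH a_POS

theorem a_FLD {M : Type} (U : RU M) : T_FLD U :=
  Pool.Agent.H74.BCT.pf_FLD U (a_DUX U) a_RCH a_NBR

theorem a_PRS : T_PRS :=
  Pool.Agent.H12.BCT.pf_PRS 

theorem a_HXY {M : Type} (U : RU M) : T_HXY U :=
  Pool.Agent.H59.BCT.pf_HXY U a_PRS

theorem a_HEA : T_HEA :=
  Pool.Agent.H76.BCT.pf_HEA 

theorem a_ISO : T_ISO :=
  Pool.Agent.H30.BCT.pf_ISO 

theorem a_SPR {M : Type} (U : RU M) : T_SPR U :=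
  Pool.Agent.H57.BCT.pf_SPR U (Pool.Agent.H77.BCP.a_RKA U) (Pool.Agent.H77.BCP.a_RKB U) (Pool.Agent.H77.BCP.a_RNV U)

theorem a_HEI {M : Type} (U : RU M) : T_HEI U :=
  Pool.Agent.H82.BCT.pf_HEI U (Pool.Agent.H77.BCP.a_RKA U) (Pool.Agent.H77.BCP.a_RKB U) (Pool.Agent.H77.BCP.a_GRA U) (Pool.Agent.H77.BCP.a_GRD U) (Pool.Agent.H77.BCP.a_GRB U) (Pool.Agent.H77.BCP.a_RNV U) a_HEA a_ISO (a_SPR U)

theorem a_MLT {M : Type} (U : RU M) : T_MLT U :=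
  Pool.Agent.H77.BD.pf_MLT U (Pool.Agent.H77.BCP.a_MUL U) a_NBR

theorem a_LOW {M : Type} (U : RU M) : T_LOW U :=
  Pool.Agent.H57.BCT.pf_LOW U (a_HXY U) (a_HEI U) (a_MLT U)

theorem a_GEN : T_GEN :=
  Pool.Agent.H16.BCT.pf_GEN a_POS

theorem a_UPS {M : Type} (U : RU M) : T_UPS U :=
  Pool.Agent.H82.BCT.pf_UPS U (Pool.Agent.H77.BCP.a_RKA U) (Pool.Agent.H77.BCP.a_RKB U)

theorem a_UPN {M : Type} (U : RU M) : T_UPN U :=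
  Pool.Agent.H13.BCT.pf_UPN U a_POS (a_UPS U)

theorem a_TRK {M : Type} (U : RU M) : T_TRK U :=
  Pool.Agent.H82.BCT.pf_TRK U (Pool.Agent.H77.BCP.a_RKA U) (Pool.Agent.H77.BCP.a_RKB U) (Pool.Agent.H77.BCP.a_RNV U)

theorem a_UIC : T_UIC :=
  Pool.Agent.H57.BCT.pf_UIC 

theorem a_OMD {M : Type} (U : RU M) : T_OMD U :=
  Pool.Agent.H12.BCT.pf_OMD U (Pool.Agent.H77.BCP.a_RKB U) a_UIC (a_UPN U) (a_TRK U)

theorem a_UIA : T_UIA :=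
  Pool.Agent.H12.BCT.pf_UIA a_POS

theorem a_OMB : T_OMB :=
  Pool.Agent.H12.BCT.pf_OMB a_UIA a_UIC

theorem a_UIT : T_UIT :=
  Pool.Agent.H57.BCT.pf_UIT a_UIA

theorem a_UIR {M : Type} (U : RU M) : T_UIR U :=
  Pool.Agent.H72.BD.pf_UIR U (Pool.Agent.H77.BCP.a_RKA U) (Pool.Agent.H77.BCP.a_RKB U) (Pool.Agent.H77.BCP.a_RKS U) a_UIA a_UIT (a_UPN U)

theorem a_OMS {M : Type} (U : RU M) : T_OMS U :=
  Pool.Agent.H78.BCT.pf_OMS U (Pool.Agent.H77.BCP.a_RKA U) (Pool.Agent.H77.BCP.a_RKB U) a_OMB (a_UPN U) (a_UIR U) (a_TRK U) (a_OMD U)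

theorem a_UPR {M : Type} (U : RU M) : T_UPR U :=
  Pool.Agent.H57.BCT.pf_UPR U a_GEN (a_UPN U) (a_TRK U) (a_OMD U) (a_OMS U) (a_CTG U)

theorem a_STB : T_STB :=
  Pool.Agent.H19.BCT.pf_STB Pool.Agent.H77.BCP.a_RKA Pool.Agent.H77.BCP.a_GRC

theorem a_FIN : T_FIN :=
  Pool.Agent.H12.BCT.pf_FIN Pool.Agent.H77.BCP.a_RKA Pool.Agent.H77.BCP.a_RKS Pool.Agent.H77.BCP.a_GTR a_CNT a_BRC a_CDC a_CDT a_FLD a_LOW a_UPR a_STB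

theorem fin : T_FIN := a_FIN

end Pool.Agent.H77.BDS
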